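import Pool.Agent.H126T.Field
import Pool.Agent.W165.CE.FF

set_option autoImplicit false
set_option linter.unusedSectionVars false

/-!
# The number of points of `y² = x⁵ + 14 D² x³ + 81 D⁴ x` over finite fields
-/

namespace Pool.Agent.K7.H65.G2

open Finset Polynomial

section sums

variable {E : Type} [Field E] [Fintype E] [DecidableEq E]

/-- the sum over the solutions `x` of `x² + 9 d² = V x` -/
theorem inner_sum (h2 : (2 : E) ≠ 0) (h3 : (3 : E) ≠ 0) (d : E) (hd : d ≠ 0) (V : E) :
    ∑ x ∈ univ.filter (fun x : E => x ^ 2 + 9 * d ^ 2 = V * x), quadraticChar E x =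
      quadraticChar E (V - 6 * d) + quadraticChar E (V + 6 * d) := by
  have hF : ringChar E ≠ 2 := by
    intro h
    apply h2
    have := ringChar.Nat.cast_ringChar (R := E)
    rw [h] at this
    exact_mod_cast this
  have h9 : (9 * d ^ 2 : E) ≠ 0 := by
    have : (9 : E) = 3 * 3 := by norm_num
    rw [this]
    exact mul_ne_zero (mul_ne_zero h3 h3) (pow_ne_zero 2 hd)
  have hsq : ∀ a b : E, a ≠ 0 → a ^ 2 = b * a → True := fun _ _ _ _ => trivial
  have hchar : ∀ x c : E, x ≠ 0 → c ≠ 0 → ∀ w : E, c ^ 2 = x * w →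
      quadraticChar E w = quadraticChar E x := by
    intro x c hx hc w h
    have h1 : quadraticChar E x * quadraticChar E w = 1 := by
      rw [← map_mul, ← h, quadraticChar_sq_one' hc]
    have h4 : quadraticChar E x * quadraticChar E x = 1 := by
      rw [← sq]; exact quadraticChar_sq_one hx
    have h5 : quadraticChar E x ≠ 0 := by
      intro h0; rw [h0] at h1; simp at h1
    exact mul_left_cancel₀ h5 (by rw [h1, h4])
  by_cases hex : ∃ x : E, x ^ 2 + 9 * d ^ 2 = V * x
  · obtain ⟨x, hx⟩ := hex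
    have hx0 : x ≠ 0 := by
      rintro rfl
      apply h9
      linear_combination hx
    have hset : univ.filter (fun z : E => z ^ 2 + 9 * d ^ 2 = V * z) = {x, 9 * d ^ 2 / x} := by
      ext z
      simp only [mem_filter, mem_univ, true_and, mem_insert, mem_singleton]
      constructor
      · intro hz
        by_cases hzx : z = x
        · exact Or.inl hzx
        · right
          rw [eq_div_iff hx0]
          have h4 : (z - x) * (z * x - 9 * d ^ 2) = 0 := by
            linear_combination x * hz - z * hx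
          rcases mul_eq_zero.1 h4 with h5 | h5
          · exact absurd (sub_eq_zero.1 h5) hzx
          · exact sub_eq_zero.1 h5
      · rintro (rfl | rfl)
        · exact hx
        · field_simp
          linear_combination 9 * hx
    have h5 : quadraticChar E (9 * d ^ 2 / x) = quadraticChar E x := by
      refine hchar x (3 * d) hx0 (mul_ne_zero h3 hd) _ ?_
      rw [mul_div_cancel₀ _ hx0]; ring
    have hm : (x - 3 * d) ^ 2 = x * (V - 6 * d) := by linear_combination hx
    have hp : (x + 3 * d) ^ 2 = x * (V + 6 * d) := by linear_combination hx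
    have hne12 : (12 : E) ≠ 0 := by
      have : (12 : E) = 2 * 2 * 3 := by norm_num
      rw [this]; exact mul_ne_zero (mul_ne_zero h2 h2) h3
    have h12 : ∀ w : E, w ≠ 0 → quadraticChar E (2 ^ 2 * w) = quadraticChar E w := by
      intro w hw
      rw [map_mul, quadraticChar_sq_one' h2, one_mul]
    rw [hset]
    by_cases ha : x = 3 * d
    · have hV : V = 6 * d := by
        have : x * (V - 6 * d) = 0 := by rw [← hm, ha]; ring
        rcases mul_eq_zero.1 this with h | h
        · exact absurd h hx0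
        · exact sub_eq_zero.1 h
      have hxx : 9 * d ^ 2 / x = x := by
        rw [div_eq_iff hx0, ha]; ring
      have e1 : 6 * d - 6 * d = 0 := sub_self _
      have e2 : 6 * d + 6 * d = 2 ^ 2 * x := by rw [ha]; ring
      rw [hxx, pair_eq_singleton, sum_singleton, hV, e1, e2, h12 _ hx0]
      simp
    · by_cases hb : x = -(3 * d)
      · have hV : V = -(6 * d) := by
          have : x * (V + 6 * d) = 0 := by rw [← hp, hb]; ring
          rcases mul_eq_zero.1 this with h | h
          · exact absurd h hx0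
          · linear_combination h
        have hxx : 9 * d ^ 2 / x = x := by
          rw [div_eq_iff hx0, hb]; ring
        have e1 : -(6 * d) + 6 * d = 0 := neg_add_cancel _
        have e2 : -(6 * d) - 6 * d = 2 ^ 2 * x := by rw [hb]; ring
        rw [hxx, pair_eq_singleton, sum_singleton, hV, e1, e2, h12 _ hx0]
        simp
      · have hne : x ≠ 9 * d ^ 2 / x := by
          intro h
          rw [eq_div_iff hx0] at h
          have : (x - 3 * d) * (x + 3 * d) = 0 := by linear_combination h
          rcases mul_eq_zero.1 this with h | h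
          · exact ha (sub_eq_zero.1 h)
          · exact hb (by linear_combination h)
        rw [sum_pair hne, h5, hchar x (x - 3 * d) hx0 (sub_ne_zero.2 ha) _ hm,
          hchar x (x + 3 * d) hx0 (fun h => hb (by linear_combination h)) _ hp]
  · push Not at hex
    have hempty : univ.filter (fun z : E => z ^ 2 + 9 * d ^ 2 = V * z) = ∅ := by
      ext z; simp [hex z]
    rw [hempty, sum_empty]
    have hns : ¬ IsSquare ((V - 6 * d) * (V + 6 * d)) := by
      rintro ⟨r, hr⟩
      apply hex ((V + r) / 2)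
      field_simp
      linear_combination -hr
    have h0 : (V - 6 * d) * (V + 6 * d) ≠ 0 := by
      intro h; exact hns (by rw [h]; exact ⟨0, by simp⟩)
    have h1 : quadraticChar E ((V - 6 * d) * (V + 6 * d)) = -1 :=
      quadraticChar_neg_one_iff_not_isSquare.2 hns
    rw [map_mul] at h1
    have h4 : quadraticChar E (V + 6 * d) * quadraticChar E (V + 6 * d) = 1 := by
      rw [← sq]; exact quadraticChar_sq_one (right_ne_zero_of_mul h0)
    have h5 : quadraticChar E (V + 6 * d) ≠ 0 := by
      intro h; rw [h] at h4; simp at h4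
    have h6 : (quadraticChar E (V - 6 * d) + quadraticChar E (V + 6 * d)) *
        quadraticChar E (V + 6 * d) = 0 := by
      rw [add_mul, h1, h4]; norm_num
    exact ((mul_eq_zero.1 h6).resolve_right h5).symm

theorem sum_quint (h2 : (2 : E) ≠ 0) (h3 : (3 : E) ≠ 0) (d : E) (hd : d ≠ 0) :
    ∑ x : E, quadraticChar E (x ^ 5 + 14 * d ^ 2 * x ^ 3 + 81 * d ^ 4 * x) =
      2 * ∑ x : E, quadraticChar E (x ^ 3 - d ^ 2 * x) := by
  have h9 : (9 * d ^ 2 : E) ≠ 0 := by
    have : (9 : E) = 3 * 3 := by norm_num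
    rw [this]
    exact mul_ne_zero (mul_ne_zero h3 h3) (pow_ne_zero 2 hd)
  have h4 : (4 : E) ≠ 0 := by
    have : (4 : E) = 2 * 2 := by norm_num
    rw [this]; exact mul_ne_zero h2 h2
  -- step 1
  have e1 : ∑ x : E, quadraticChar E (x ^ 5 + 14 * d ^ 2 * x ^ 3 + 81 * d ^ 4 * x) =
      ∑ V : E, quadraticChar E (V ^ 2 - 4 * d ^ 2) *
        ∑ x ∈ univ.filter (fun x : E => x ^ 2 + 9 * d ^ 2 = V * x), quadraticChar E x := by
    simp_rw [mul_sum, sum_filter]
    rw [sum_comm]
    refine sum_congr rfl fun x _ => ?_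
    by_cases hx : x = 0
    · subst hx
      rw [sum_eq_zero]
      · simp
      · intro V _
        rw [if_neg]
        intro h
        apply h9
        linear_combination h
    · have hiff : ∀ V : E, x ^ 2 + 9 * d ^ 2 = V * x ↔ V = x + 9 * d ^ 2 / x := by
        intro V
        constructor
        · intro h
          field_simp
          linear_combination -h
        · rintro rfl
          field_simp
      simp_rw [hiff]
      rw [sum_ite_eq' univ (x + 9 * d ^ 2 / x), if_pos (mem_univ _), ← map_mul]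
      have : x ^ 5 + 14 * d ^ 2 * x ^ 3 + 81 * d ^ 4 * x =
          x ^ 2 * (((x + 9 * d ^ 2 / x) ^ 2 - 4 * d ^ 2) * x) := by
        field_simp
        ring
      rw [this, map_mul (quadraticChar E) (x ^ 2), quadraticChar_sq_one' hx, one_mul]
  rw [e1]
  simp_rw [inner_sum h2 h3 d hd, mul_add]
  rw [sum_add_distrib, two_mul]
  have h64 : ∀ w : E, quadraticChar E (64 * w) = quadraticChar E w := by
    intro w
    have : (64 : E) = 8 ^ 2 := by norm_num
    have h8 : (8 : E) ≠ 0 := by
      have : (8 : E) = 2 * 2 * 2 := by norm_num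
      rw [this]; exact mul_ne_zero (mul_ne_zero h2 h2) h2
    rw [this, map_mul, quadraticChar_sq_one' h8, one_mul]
  congr 1
  · refine (Fintype.sum_equiv ((Equiv.mulLeft₀ (4 : E) h4).trans (Equiv.addRight (2 * d))) _ _
      (fun x => ?_)).symm
    show quadraticChar E (x ^ 3 - d ^ 2 * x) =
      quadraticChar E ((4 * x + 2 * d) ^ 2 - 4 * d ^ 2) * quadraticChar E (4 * x + 2 * d - 6 * d)
    rw [← map_mul, ← h64]
    congr 1
    ring
  · refine (Fintype.sum_equiv ((Equiv.mulLeft₀ (4 : E) h4).trans (Equiv.addRight (-(2 * d)))) _ _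
      (fun x => ?_)).symm
    show quadraticChar E (x ^ 3 - d ^ 2 * x) =
      quadraticChar E ((4 * x + -(2 * d)) ^ 2 - 4 * d ^ 2) * quadraticChar E (4 * x + -(2 * d) + 6 * d)
    rw [← map_mul, ← h64]
    congr 1
    ring

end sums

section count

open Pool.Agent.H341R2.Sharp Pool.Agent.H126T W165.CE Pool.Agent.H82R3.EK

variable {k : Type} [Field k] [Finite k]

/-- the number of affine points of `y² = x⁵ + 14 D² x³ + 81 D⁴ x` over the extension of degree `n` -/
theorem affPts_quint (h2 : (2 : k) ≠ 0) (h3 : (3 : k) ≠ 0) (d : k) (hd : d ≠ 0) (α β : ℂ)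
    (hα : α + β = (Nat.card k : ℂ) - Nat.card {P : k × k // P.2 ^ 2 = P.1 ^ 3 - d ^ 2 * P.1})
    (hβ : α * β = Nat.card k) (n : ℕ) (hn : 1 ≤ n) :
    (affPts k (X ^ 5 + C (14 * d ^ 2) * X ^ 3 + C (81 * d ^ 4) * X) 1 n : ℂ) =
      (Nat.card k : ℂ) ^ n - 2 * (α ^ n + β ^ n) := by
  classical
  let _ := Fintype.ofFinite k
  have hF : ringChar k ≠ 2 := by
    intro h
    apply h2
    have := ringChar.Nat.cast_ringChar (R := k)
    rw [h] at this
    exact_mod_cast this
  obtain ⟨E, i1, i2, i3, hE⟩ := exists_ext (k := k) n (by omega)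
  let _ := Fintype.ofFinite E
  have hE2 : ringChar E ≠ 2 := by rwa [← Algebra.ringChar_eq k E]
  rw [affPts_eq _ _ n E hE]
  have hinj : Function.Injective (algebraMap k E) := (algebraMap k E).injective
  have hdE : algebraMap k E d ≠ 0 := (_root_.map_ne_zero _).2 hd
  have h2E : (2 : E) ≠ 0 := by
    rw [← map_ofNat (algebraMap k E) 2]; exact (_root_.map_ne_zero _).2 h2
  have h3E : (3 : E) ≠ 0 := by
    rw [← map_ofNat (algebraMap k E) 3]; exact (_root_.map_ne_zero _).2 h3
  have e1 : (Nat.card {P : E × E // algebraMap k E 1 * P.2 ^ 2 =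
      aeval P.1 (X ^ 5 + C (14 * d ^ 2) * X ^ 3 + C (81 * d ^ 4) * X)} : ℤ) =
      Fintype.card E + 2 * ∑ x : E, quadraticChar E (x ^ 3 - algebraMap k E d ^ 2 * x) := by
    have h := card_points hE2 (fun x : E => x ^ 5 + 14 * algebraMap k E d ^ 2 * x ^ 3 +
      81 * algebraMap k E d ^ 4 * x)
    rw [sum_quint h2E h3E _ hdE] at h
    rw [← h]
    congr 3
    funext P
    simp only [map_one, one_mul, map_add, map_mul, map_pow, aeval_X, aeval_C, map_ofNat]
  have e2 : ∑ x : E, quadraticChar E (x ^ 3 - algebraMap k E d ^ 2 * x) = T (wei (-(d ^ 2)) 0) n := by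
    have hfr : Module.finrank k E = n := by
      have h1 := Module.card_eq_pow_finrank (K := k) (V := E)
      rw [← Nat.card_eq_fintype_card, ← Nat.card_eq_fintype_card, hE] at h1
      have hk1 : 1 < Nat.card k := Finite.one_lt_card
      exact (Nat.pow_right_injective hk1 h1).symm
    rw [← hfr, T_eq_sum (E := E) hF]
    refine sum_congr rfl fun x _ => ?_
    rw [aeval_wei, map_neg, map_pow, map_zero]
    congr 1
    ring
  have e3 : ((Nat.card k : ℤ) : ℤ) - Nat.card {P : k × k // P.2 ^ 2 = P.1 ^ 3 - d ^ 2 * P.1} =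
      - T (wei (-(d ^ 2)) 0) 1 := by
    have h := card_points hF (fun x : k => x ^ 3 - d ^ 2 * x)
    have h1 := T_eq_sum (E := k) hF (wei (-(d ^ 2)) 0)
    rw [Module.finrank_self] at h1
    rw [h1, h, Nat.card_eq_fintype_card]
    have : ∀ x : k, aeval x (wei (-(d ^ 2)) 0) = x ^ 3 - d ^ 2 * x := by
      intro x
      rw [aeval_wei]; simp; ring
    simp_rw [this]
    ring
  have hdisc : 4 * (-(d ^ 2)) ^ 3 + 27 * (0 : k) ^ 2 ≠ 0 := by
    have : 4 * (-(d ^ 2)) ^ 3 + 27 * (0 : k) ^ 2 = -(2 * 2 * d ^ 6) := by ring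
    rw [this]
    exact neg_ne_zero.2 (mul_ne_zero (mul_ne_zero h2 h2) (pow_ne_zero 6 hd))
  obtain ⟨m, rfl⟩ : ∃ m, n = m + 1 := ⟨n - 1, by omega⟩
  have e4 := T_luc hF (wei_natDegree (-(d ^ 2)) 0) (wei_monic (-(d ^ 2)) 0) m
  rw [A_two hF _ _ hdisc, ← e3] at e4
  have hα' : α + β = (((Nat.card k : ℤ) - Nat.card {P : k × k // P.2 ^ 2 = P.1 ^ 3 - d ^ 2 * P.1} : ℤ) : ℂ) := by
    rw [hα]; push_cast; ring
  have hβ' : α * β = ((Fintype.card k : ℤ) : ℂ) := by
    rw [hβ, Nat.card_eq_fintype_card]; push_cast; ring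
  have e5 := luc_eq hα' hβ' (m + 1)
  have e6 : ((Nat.card {P : E × E // algebraMap k E 1 * P.2 ^ 2 =
      aeval P.1 (X ^ 5 + C (14 * d ^ 2) * X ^ 3 + C (81 * d ^ 4) * X)} : ℤ) : ℂ) =
      ((Fintype.card E + 2 * T (wei (-(d ^ 2)) 0) (m + 1) : ℤ) : ℂ) := by
    rw [e1, e2]
  rw [e4] at e6
  have e7 : ((Nat.card {P : E × E // algebraMap k E 1 * P.2 ^ 2 =
      aeval P.1 (X ^ 5 + C (14 * d ^ 2) * X ^ 3 + C (81 * d ^ 4) * X)} : ℕ) : ℂ) =
      (((Nat.card {P : E × E // algebraMap k E 1 * P.2 ^ 2 =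
      aeval P.1 (X ^ 5 + C (14 * d ^ 2) * X ^ 3 + C (81 * d ^ 4) * X)} : ℕ) : ℤ) : ℂ) :=
    (Int.cast_natCast _).symm
  rw [e7, e6]
  rw [← Nat.card_eq_fintype_card (α := E), hE]
  rw [Int.cast_add, Int.cast_mul, Int.cast_neg, e5]
  push_cast
  ring

end count

end Pool.Agent.K7.H65.G2
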