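import Pool.Agent.K7.H65.G2.Invol
import Pool.Agent.K7.H65.G2.EllClass

set_option autoImplicit false
set_option linter.unusedSectionVars false

/-!
# The exponent of the class group of `y² = x⁵ + 14 D² x³ + 81 D⁴ x`
-/

namespace Pool.Agent.K7.H65.G2

open Polynomial Pool.Agent.TH943.HJ

section away

variable {F : Type} [Field F] [CharZero F] {D : F} {B : Type} [CommRing B] [Algebra (CR (quint D)) B]
  [Algebra F B] [IsScalarTower F (CR (quint D)) B] [IsLocalization.Away (pp X : CR (quint D)) B]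

/-! ### The maps to the elliptic curve -/

variable (D B) in
/-- the `x`-coordinate -/
noncomputable def baseE (D' : F) : F[X] →+* B :=
  eval₂RingHom (algebraMap F B) (algebraMap F B (1 / 4) * ((gens D B).V - algebraMap F B (2 * D')))

theorem baseE_C (D' a : F) : baseE D B D' (C a) = algebraMap F B a := by
  unfold baseE; simp

theorem baseE_X (D' : F) : baseE D B D' X =
    algebraMap F B (1 / 4) * ((gens D B).V - algebraMap F B (2 * D')) := by
  unfold baseE; simp

theorem sqE (D' : F) (hD' : D' ^ 2 = D ^ 2) :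
    (algebraMap F B (1 / 8) * (((gens D B).x - algebraMap F B (3 * D')) * (gens D B).y *
      (gens D B).xi ^ 2)) ^ 2 = baseE D B D' (cubic D) := by
  have hq : baseE D B D' (cubic D) = baseE D B D' X ^ 3 - baseE D B D' (C (D ^ 2)) * baseE D B D' X := by
    unfold cubic
    rw [map_sub, map_mul, map_pow]
  rw [hq, baseE_C, baseE_X]
  have hx := (gens D B).hx
  have hy := (gens D B).hy
  have hV : (gens D B).V = (gens D B).x + algebraMap F B (9 * D ^ 2) * (gens D B).xi := rfl
  obtain ⟨e, he⟩ : ∃ e : B, e = algebraMap F B D' := ⟨_, rfl⟩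
  have h1 : algebraMap F B (D ^ 2) = e ^ 2 := by rw [he, ← map_pow, hD']
  have h9 : algebraMap F B (9 * D ^ 2) = 9 * e ^ 2 := by rw [map_mul, h1, map_ofNat]
  have h14 : algebraMap F B (14 * D ^ 2) = 14 * e ^ 2 := by rw [map_mul, h1, map_ofNat]
  have h81 : algebraMap F B (81 * D ^ 4) = 81 * e ^ 4 := by
    have : D ^ 4 = (D ^ 2) ^ 2 := by ring
    rw [map_mul, this, map_pow, h1, map_ofNat]; ring
  have h2 : algebraMap F B (2 * D') = 2 * e := by rw [map_mul, he, map_ofNat]
  have h3 : algebraMap F B (3 * D') = 3 * e := by rw [map_mul, he, map_ofNat]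
  have h4 : algebraMap F B (1 / 4) = 16 * algebraMap F B (1 / 64) := by
    rw [← map_ofNat (algebraMap F B) 16, ← map_mul]; congr 1; norm_num
  have h8 : algebraMap F B (1 / 8) = 8 * algebraMap F B (1 / 64) := by
    rw [← map_ofNat (algebraMap F B) 8, ← map_mul]; congr 1; norm_num
  have h64 : 64 * algebraMap F B (1 / 64) = 1 := by
    rw [← map_ofNat (algebraMap F B) 64, ← map_mul, ← map_one (algebraMap F B)]; congr 1; norm_num
  rw [h14, h81] at hy
  rw [h9] at hV
  rw [hV, h1, h2, h3, h4, h8]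
  generalize algebraMap F B (1 / 64) = u at *
  generalize (gens D B).x = x at *
  generalize (gens D B).xi = t at *
  generalize (gens D B).y = y at *
  have h5 : x ^ 4 * t ^ 4 = 1 := by rw [← mul_pow, hx, one_pow]
  have h6 : x ^ 3 * t ^ 3 = 1 := by rw [← mul_pow, hx, one_pow]
  have h7 : x ^ 2 * t ^ 2 = 1 := by rw [← mul_pow, hx, one_pow]
  have e1 : y ^ 2 * t ^ 3 = (x + 9 * e ^ 2 * t) ^ 2 - 4 * e ^ 2 := by
    rw [hy]
    linear_combination (x ^ 2 + 14 * e ^ 2) * h6 + (81 * e ^ 4 * t ^ 2 - 18 * e ^ 2) * hx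
  have e2 : (x - 3 * e) ^ 2 * t = x + 9 * e ^ 2 * t - 6 * e := by
    linear_combination (x - 6 * e) * hx
  have e3 : (8 * u * ((x - 3 * e) * y * t ^ 2)) ^ 2 =
      64 * u ^ 2 * ((x + 9 * e ^ 2 * t - 6 * e) * ((x + 9 * e ^ 2 * t) ^ 2 - 4 * e ^ 2)) := by
    rw [← e1, ← e2]; ring
  rw [e3]
  generalize x + 9 * e ^ 2 * t = V at *
  have h65 : 64 * u ^ 2 = u := by linear_combination u * h64
  have h66 : 4096 * u ^ 3 = u := by linear_combination (64 * u ^ 2 + u) * h64
  linear_combination ((V - 6 * e) * (V ^ 2 - 4 * e ^ 2)) * h65 - (V - 2 * e) ^ 3 * h66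

theorem evalE (D' : F) (hD' : D' ^ 2 = D ^ 2) : (X ^ 2 - C (cubic D) : F[X][X]).eval₂ (baseE D B D')
    (algebraMap F B (1 / 8) * (((gens D B).x - algebraMap F B (3 * D')) * (gens D B).y *
      (gens D B).xi ^ 2)) = 0 := by
  rw [eval₂_sub, eval₂_pow, eval₂_X, eval₂_C, sqE D' hD', sub_self]

variable (B) in
/-- The map to the elliptic curve. -/
noncomputable def phi (D' : F) (hD' : D' ^ 2 = D ^ 2) : CR (cubic D) →+* B :=
  AdjoinRoot.lift (baseE D B D') _ (evalE D' hD')

theorem phi_pp (D' : F) (hD' : D' ^ 2 = D ^ 2) (p : F[X]) : phi B D' hD' (pp p) = baseE D B D' p :=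
  AdjoinRoot.lift_of (i := baseE D B D') (h := evalE D' hD') (x := p)

theorem phi_yy (D' : F) (hD' : D' ^ 2 = D ^ 2) : phi B D' hD' (yy (cubic D)) =
    algebraMap F B (1 / 8) * (((gens D B).x - algebraMap F B (3 * D')) * (gens D B).y *
      (gens D B).xi ^ 2) :=
  AdjoinRoot.lift_root (i := baseE D B D') (evalE D' hD')

theorem norm_sig (hD : D ≠ 0) (D' : F) (hD' : D' ^ 2 = D ^ 2) (z : B) :
    ∃ r, phi B D' hD' r = z * sig B hD D' hD' z :=
  (gens D B).norm_range (spans hD) D' hD' _ (sig_F hD D' hD') (sig_x hD D' hD') (sig_xi hD D' hD')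
    (sig_y hD D' hD') (phi B D' hD') (fun a => by rw [phi_pp, baseE_C])
    (by rw [phi_pp, baseE_X]) (phi_yy D' hD') z

/-! ### The projective line -/

variable (F) in
/-- `F[x, 1 / x]` -/
abbrev LA : Type := Localization.Away (X : F[X])

instance : IsPrincipalIdealRing (LA F) := by
  constructor
  intro J
  have h := IsLocalization.map_under (Submonoid.powers (X : F[X])) (LA F) J
  obtain ⟨a, ha⟩ := (IsPrincipalIdealRing.principal (J.comap (algebraMap F[X] (LA F)))).principal
  refine ⟨⟨algebraMap F[X] (LA F) a, ?_⟩⟩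
  rw [← h, Ideal.under_def, ha, Ideal.submodule_span_eq, Ideal.map_span, Set.image_singleton,
    Ideal.submodule_span_eq]

theorem jj_unit : IsUnit (jj D B X) := IsLocalization.Away.algebraMap_isUnit (pp X : CR (quint D))

variable (D B) in
/-- The inclusion of `F[x, 1 / x]`. -/
noncomputable def phi0 : LA F →+* B := IsLocalization.Away.lift (X : F[X]) (jj_unit (D := D) (B := B))

theorem phi0_alg (p : F[X]) : phi0 D B (algebraMap F[X] (LA F) p) = jj D B p :=
  IsLocalization.Away.lift_eq _ _ _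

theorem norm_tau (z : B) : ∃ r, phi0 D B r = z * tau D B z := by
  obtain ⟨⟨a, s⟩, rfl⟩ := IsLocalization.mk'_surjective (Submonoid.powers (pp X : CR (quint D))) z
  obtain ⟨n, hn⟩ := s.2
  have hx := (gens D B).hx
  have hz : IsLocalization.mk' B a s = (gens D B).xi ^ n * algebraMap (CR (quint D)) B a := by
    rw [IsLocalization.mk'_eq_iff_eq_mul]
    have hn' : algebraMap (CR (quint D)) B s = (gens D B).x ^ n := by
      rw [← hn, map_pow]; rfl
    rw [hn', mul_right_comm, ← mul_pow, mul_comm (gens D B).xi, (gens D B).hx, one_pow, one_mul]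
  simp only at hz ⊢
  rw [hz, map_mul, map_pow, tau_xi, tau_alg]
  obtain ⟨p, q, rfl⟩ := exists_el a
  have h1 : algebraMap (CR (quint D)) B (el p q) * algebraMap (CR (quint D)) B (cj _ (el p q)) =
      jj D B (p ^ 2 - quint D * q ^ 2) := by
    rw [← map_mul, el_mul_cj]; rfl
  have h2 : phi0 D B (IsLocalization.Away.invSelf (X : F[X])) = (gens D B).xi := by
    have h3 : phi0 D B (algebraMap F[X] (LA F) X) * phi0 D B (IsLocalization.Away.invSelf (X : F[X])) = 1 := by
      rw [← map_mul, IsLocalization.Away.mul_invSelf, map_one]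
    rw [phi0_alg] at h3
    have h4 : jj D B X = (gens D B).x := rfl
    rw [h4] at h3
    linear_combination (gens D B).xi * h3 - phi0 D B (IsLocalization.Away.invSelf (X : F[X])) * hx
  refine ⟨IsLocalization.Away.invSelf (X : F[X]) ^ (2 * n) *
    algebraMap F[X] (LA F) (p ^ 2 - quint D * q ^ 2), ?_⟩
  rw [map_mul, map_pow, h2, phi0_alg, ← h1, pow_mul, pow_right_comm]
  ring

/-! ### The exponent of the class group of `B` -/

theorem expB [IsDedekindDomain B] (hD : D ≠ 0) (e : ℕ)
    (he : ∀ J : Ideal (CR (cubic D)), ∃ a, J ^ e = Ideal.span {a}) (I : Ideal B) :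
    ∃ a, I ^ (2 * e) = Ideal.span {a} := by
  have hneg : (-D) ^ 2 = D ^ 2 := by ring
  exact exponent (phi B D rfl) (phi B (-D) hneg) (phi0 D B)
    (σ₁ := RingEquiv.ofRingHom (sig B hD D rfl) (sig B hD D rfl)
      (RingHom.ext (sig_sig hD D rfl)) (RingHom.ext (sig_sig hD D rfl)))
    (σ₂ := RingEquiv.ofRingHom (sig B hD (-D) hneg) (sig B hD (-D) hneg)
      (RingHom.ext (sig_sig hD (-D) hneg)) (RingHom.ext (sig_sig hD (-D) hneg)))
    (τ := RingEquiv.ofRingHom (tau D B) (tau D B) (RingHom.ext tau_tau) (RingHom.ext tau_tau))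
    (sig_sig hD D rfl) (sig_sig hD (-D) hneg) tau_tau (sig_tau hD) (norm_sig hD D rfl)
    (norm_sig hD (-D) hneg) norm_tau e he he I

end away

/-! ### The point `(0, 0)` -/

section desc

variable {F : Type} [Field F] [CharZero F] {D : F}

variable (D) in
/-- The ideal of the point `(0, 0)`. -/
noncomputable def P0 : Ideal (CR (quint D)) := Ideal.span {pp X, yy (quint D)}

variable (D) in
theorem ev_eq : (X ^ 2 - C (quint D) : F[X][X]).eval₂ (evalRingHom (0 : F)) 0 = 0 := by
  rw [eval₂_sub, eval₂_pow, eval₂_X, eval₂_C]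
  unfold quint
  simp

variable (D) in
/-- The value at `(0, 0)`. -/
noncomputable def ev0 : CR (quint D) →+* F := AdjoinRoot.lift (evalRingHom (0 : F)) 0 (ev_eq D)

theorem ev0_pp (p : F[X]) : ev0 D (pp p) = p.eval 0 :=
  AdjoinRoot.lift_of (i := evalRingHom (0 : F)) (h := ev_eq D) (x := p)

theorem ev0_yy : ev0 D (yy (quint D)) = 0 :=
  AdjoinRoot.lift_root (i := evalRingHom (0 : F)) (ev_eq D)

theorem P0_eq : P0 D = RingHom.ker (ev0 D) := by
  apply le_antisymm
  · unfold P0
    rw [Ideal.span_le]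
    rintro z (rfl | rfl)
    · show ev0 D (pp X) = 0
      rw [ev0_pp, eval_X]
    · exact ev0_yy
  · intro z hz
    obtain ⟨p, q, rfl⟩ := exists_el z
    rw [RingHom.mem_ker] at hz
    unfold el at hz ⊢
    rw [map_add, map_mul, ev0_pp, ev0_pp, ev0_yy, mul_zero, add_zero] at hz
    obtain ⟨p', rfl⟩ := (Polynomial.X_dvd_iff (f := p)).2 (by rw [coeff_zero_eq_eval_zero]; exact hz)
    refine add_mem ?_ ?_
    · rw [map_mul]
      exact Ideal.mul_mem_right _ _ (Ideal.subset_span (by simp))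
    · exact Ideal.mul_mem_left _ _ (Ideal.subset_span (by simp))

theorem P0_prime : (P0 D).IsPrime := by
  rw [P0_eq]; exact RingHom.ker_isPrime _

theorem P0_sq (hD : D ≠ 0) : P0 D ^ 2 = Ideal.span {pp X} := by
  have hy := yy_sq (quint D)
  have hq : (pp (quint D) : CR (quint D)) = pp X ^ 5 + pp (C (14 * D ^ 2)) * pp X ^ 3 +
      pp (C (81 * D ^ 4)) * pp X := ring_id _ _ _
  rw [hq] at hy
  rw [pow_two (P0 D)]
  unfold P0
  rw [Ideal.span_pair_mul_span_pair]
  apply le_antisymm
  · rw [Ideal.span_le]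
    rintro z (rfl | rfl | rfl | rfl)
    · exact Ideal.mem_span_singleton.2 (Dvd.intro _ rfl)
    · exact Ideal.mem_span_singleton.2 (Dvd.intro _ rfl)
    · exact Ideal.mem_span_singleton.2 (Dvd.intro_left _ rfl)
    · refine Ideal.mem_span_singleton.2 ⟨pp X ^ 4 + pp (C (14 * D ^ 2)) * pp X ^ 2 +
        pp (C (81 * D ^ 4)), ?_⟩
      linear_combination hy
  · rw [Ideal.span_singleton_le_iff_mem]
    have hne : (81 * D ^ 4 : F) ≠ 0 := mul_ne_zero (by norm_num) (pow_ne_zero 4 hD)
    have hu : (pp (C (81 * D ^ 4)⁻¹) : CR (quint D)) * pp (C (81 * D ^ 4)) = 1 := by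
      rw [← map_mul, ← C_mul, inv_mul_cancel₀ hne, C_1, map_one]
    have h1 : (pp X : CR (quint D)) = pp (C (81 * D ^ 4)⁻¹) * (yy (quint D) * yy (quint D)) +
        (-pp (C (81 * D ^ 4)⁻¹) * (pp X ^ 3 + pp (C (14 * D ^ 2)) * pp X)) * (pp X * pp X) := by
      linear_combination (-pp (C (81 * D ^ 4)⁻¹)) * hy + (-pp X) * hu
    have hxx : pp X * pp X ∈ Ideal.span {pp X * pp X, pp X * yy (quint D), yy (quint D) * pp X,
        yy (quint D) * yy (quint D)} := Ideal.subset_span (by simp)
    have hyy : yy (quint D) * yy (quint D) ∈ Ideal.span {pp X * pp X, pp X * yy (quint D),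
        yy (quint D) * pp X, yy (quint D) * yy (quint D)} := Ideal.subset_span (by simp)
    generalize Ideal.span {pp X * pp X, pp X * yy (quint D), yy (quint D) * pp X,
        yy (quint D) * yy (quint D)} = S at hxx hyy ⊢
    rw [h1]
    exact add_mem (Ideal.mul_mem_left _ _ hyy) (Ideal.mul_mem_left _ _ hxx)

/-- Ideals with the same extension to `B`. -/
theorem exists_pow_mul_le {A B : Type} [CommRing A] [IsDomain A] [IsNoetherianRing A] [CommRing B]
    [Algebra A B] (x : A) (hx0 : x ≠ 0) [IsLocalization.Away x B] {I₁ I₂ : Ideal A}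
    (h : I₁.map (algebraMap A B) = I₂.map (algebraMap A B)) :
    ∃ N : ℕ, Ideal.span {x ^ N} * I₁ ≤ I₂ := by
  classical
  have hinj : Function.Injective (algebraMap A B) := by
    refine IsLocalization.injective B (M := Submonoid.powers x) ?_
    exact powers_le_nonZeroDivisors_of_noZeroDivisors hx0
  obtain ⟨s, hs⟩ := IsNoetherian.noetherian I₁
  have h1 : ∀ g ∈ s, ∃ n : ℕ, x ^ n * g ∈ I₂ := by
    intro g hg
    have hg1 : g ∈ I₁ := by rw [← hs]; exact Submodule.subset_span hg
    have hg2 : algebraMap A B g ∈ I₂.map (algebraMap A B) := by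
      rw [← h]; exact Ideal.mem_map_of_mem _ hg1
    obtain ⟨⟨a, m⟩, ham⟩ := (IsLocalization.mem_map_algebraMap_iff (Submonoid.powers x) B).1 hg2
    obtain ⟨n, hn⟩ := m.2
    refine ⟨n, ?_⟩
    simp only at ham
    rw [← map_mul] at ham
    have := hinj ham
    rw [← hn] at this
    rw [mul_comm]
    simp only at this
    rw [this]; exact a.2
  choose! n hn using h1
  refine ⟨∑ g ∈ s, n g, ?_⟩
  rw [← hs, Ideal.mul_le]
  intro r hr t ht
  obtain ⟨r', rfl⟩ := Ideal.mem_span_singleton'.1 hr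
  rw [mul_assoc]
  refine Ideal.mul_mem_left _ _ ?_
  induction ht using Submodule.span_induction with
  | mem g hg =>
    have h2 : ∑ g ∈ s, n g = (∑ g ∈ s, n g - n g) + n g := by
      have := Finset.single_le_sum (f := n) (fun i _ => Nat.zero_le _) hg
      omega
    rw [h2, pow_add, mul_assoc]
    exact Ideal.mul_mem_left _ _ (hn g hg)
  | zero => rw [mul_zero]; exact zero_mem _
  | add a b _ _ ha hb => rw [mul_add]; exact add_mem ha hb
  | smul a b _ hb =>
    have : x ^ (∑ g ∈ s, n g) * (a • b) = a * (x ^ (∑ g ∈ s, n g) * b) := by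
      rw [smul_eq_mul]; ring
    rw [this]; exact Ideal.mul_mem_left _ _ hb

/-- Descent: the square of an ideal whose extension is principal is principal, if `(x) = P ^ 2`. -/
theorem descend {A B : Type} [CommRing A] [IsDedekindDomain A] [CommRing B] [IsDomain B]
    [Algebra A B] (x : A) (hx0 : x ≠ 0) [IsLocalization.Away x B] (P : Ideal A) (hP : P.IsPrime)
    (hP2 : P ^ 2 = Ideal.span {x}) {I : Ideal A} {b : B}
    (h : I.map (algebraMap A B) = Ideal.span {b}) : ∃ a, I ^ 2 = Ideal.span {a} := by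
  have hM : Submonoid.powers x ≤ nonZeroDivisors A := powers_le_nonZeroDivisors_of_noZeroDivisors hx0
  have hinj : Function.Injective (algebraMap A B) := IsLocalization.injective B hM
  rcases eq_or_ne I ⊥ with rfl | hI
  · exact ⟨0, by simp⟩
  have hPbot : P ≠ ⊥ := by
    rintro rfl
    apply hx0
    have : x ∈ (⊥ : Ideal A) ^ 2 := by rw [hP2]; exact Ideal.mem_span_singleton_self x
    simpa using this
  have hPp : Prime P := Ideal.prime_of_isPrime hPbot hP
  -- `b` may be taken in `A`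
  obtain ⟨⟨a, s⟩, hab⟩ := IsLocalization.surj (Submonoid.powers x) b
  simp only at hab
  have hsu : IsUnit (algebraMap A B s) := IsLocalization.map_units B s
  have h2 : I.map (algebraMap A B) = (Ideal.span {a}).map (algebraMap A B) := by
    rw [h, Ideal.map_span, Set.image_singleton, ← hab, Ideal.span_singleton_mul_right_unit hsu]
  have ha0 : a ≠ 0 := by
    rintro rfl
    have h3 : I.map (algebraMap A B) = ⊥ := by
      rw [h2, Ideal.span_singleton_eq_bot.2 rfl, Ideal.map_bot]
    exact hI ((Ideal.map_eq_bot_iff_of_injective hinj).1 h3)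
  obtain ⟨N, hN⟩ := exists_pow_mul_le (B := B) x hx0 h2
  obtain ⟨M, hM'⟩ := exists_pow_mul_le (B := B) x hx0 h2.symm
  obtain ⟨K, hK⟩ := Ideal.dvd_iff_le.2 hN
  obtain ⟨K', hK'⟩ := Ideal.dvd_iff_le.2 hM'
  have hsa : Ideal.span {a} ≠ (0 : Ideal A) := fun h0 => ha0 (Ideal.span_singleton_eq_bot.1 h0)
  have hspan : ∀ n : ℕ, Ideal.span {x ^ n} = P ^ (2 * n) := by
    intro n
    rw [pow_mul, hP2, Ideal.span_singleton_pow]
  have h4 : K * K' = P ^ (2 * (N + M)) := by
    have h5 : (I * Ideal.span {a}) * (K * K') = (I * Ideal.span {a}) * P ^ (2 * (N + M)) := by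
      calc (I * Ideal.span {a}) * (K * K') = (Ideal.span {a} * K) * (I * K') := by ring
        _ = (Ideal.span {x ^ N} * I) * (Ideal.span {x ^ M} * Ideal.span {a}) := by rw [← hK, ← hK']
        _ = (I * Ideal.span {a}) * (Ideal.span {x ^ N} * Ideal.span {x ^ M}) := by ring
        _ = _ := by rw [hspan, hspan, ← pow_add]; congr 2; ring
    exact mul_left_cancel₀ (mul_ne_zero hI hsa) h5
  have h6 : K ∣ P ^ (2 * (N + M)) := Dvd.intro _ h4
  obtain ⟨j, -, hj⟩ := (dvd_prime_pow hPp _).1 h6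
  rw [associated_iff_eq] at hj
  have h7 : I ^ 2 * Ideal.span {(x ^ N) ^ 2} = Ideal.span {a ^ 2 * x ^ j} := by
    calc I ^ 2 * Ideal.span {(x ^ N) ^ 2} = (Ideal.span {x ^ N} * I) ^ 2 := by
          rw [← Ideal.span_singleton_pow]; ring
      _ = (Ideal.span {a} * K) ^ 2 := by rw [hK]
      _ = Ideal.span {a ^ 2} * Ideal.span {x ^ j} := by
          rw [hj, mul_pow, Ideal.span_singleton_pow, ← pow_mul, hspan, mul_comm j]
      _ = _ := Ideal.span_singleton_mul_span_singleton _ _
  exact principal_of_mul (pow_ne_zero 2 (pow_ne_zero N hx0)) h7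

/-- **The exponent of the class group.** If the `e`-th powers of the ideals of the affine ring of
`y² = x³ - D² x` are principal, then so are the `4 e`-th powers of the ideals of the affine ring of
`y² = x⁵ + 14 D² x³ + 81 D⁴ x`. -/
theorem expA (hD : D ≠ 0) (e : ℕ) (he : ∀ J : Ideal (CR (cubic D)), ∃ a, J ^ e = Ideal.span {a})
    (I : Ideal (CR (quint D))) : ∃ a, I ^ (4 * e) = Ideal.span {a} := by
  have := ded_quint hD
  have hx0 : (pp X : CR (quint D)) ≠ 0 := by
    intro h
    exact X_ne_zero (pp_inj (by rw [h, map_zero]))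
  have hM : Submonoid.powers (pp X : CR (quint D)) ≤ nonZeroDivisors _ :=
    powers_le_nonZeroDivisors_of_noZeroDivisors hx0
  have : IsDomain (Localization.Away (pp X : CR (quint D))) :=
    IsLocalization.isDomain_localization hM
  have : IsDedekindDomain (Localization.Away (pp X : CR (quint D))) :=
    IsLocalization.isDedekindDomain (CR (quint D)) hM _
  obtain ⟨b, hb⟩ := expB (D := D) (B := Localization.Away (pp X : CR (quint D))) hD e he
    (I.map (algebraMap _ _))
  rw [← Ideal.map_pow] at hb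
  obtain ⟨a, ha⟩ := descend (pp X : CR (quint D)) hx0 (P0 D) P0_prime (P0_sq hD) hb
  refine ⟨a, ?_⟩
  rw [← ha, ← pow_mul]
  congr 1; ring

end desc

/-! ### The elliptic curve -/

section ell

variable {F : Type} [Field F] [CharZero F] {D : F}

variable (D) in
/-- `y² = x³ - D² x` -/
noncomputable def ellD : WeierstrassCurve.Affine F :=
  WeierstrassCurve.toAffine { a₁ := 0, a₂ := 0, a₃ := 0, a₄ := -(D ^ 2), a₆ := 0 }

theorem ellD_poly : (ellD D).polynomial = X ^ 2 - C (cubic D) := by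
  unfold WeierstrassCurve.Affine.polynomial ellD cubic WeierstrassCurve.toAffine
  simp
  ring

theorem ell_exp (hD : D ≠ 0) [Finite (ellD D).Point] :
    ∃ e, 0 < e ∧ ∀ J : Ideal (CR (cubic D)), ∃ a, J ^ e = Ideal.span {a} := by
  classical
  have key : ∀ p : F[X][X], p = X ^ 2 - C (cubic D) → IsDedekindDomain (AdjoinRoot p) ∧
      ∀ e : ℕ, (∀ J : Ideal (AdjoinRoot p), ∃ a, J ^ e = Ideal.span {a}) →
        ∀ J : Ideal (CR (cubic D)), ∃ a, J ^ e = Ideal.span {a} := by
    rintro p rfl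
    exact ⟨ded_cubic hD, fun e h => h⟩
  obtain ⟨k1, k2⟩ := key _ (ellD_poly (D := D))
  have : IsDedekindDomain (ellD D).CoordinateRing := k1
  have hΔ : (ellD D).Δ ≠ 0 := by
    have : (ellD D).Δ = 64 * D ^ 6 := by
      unfold ellD WeierstrassCurve.toAffine WeierstrassCurve.Δ WeierstrassCurve.b₂ WeierstrassCurve.b₄
        WeierstrassCurve.b₆ WeierstrassCurve.b₈
      ring
    rw [this]
    exact mul_ne_zero (by norm_num) (pow_ne_zero 6 hD)
  have hns : ∀ x y : F, (ellD D).Equation x y → (ellD D).Nonsingular x y := by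
    intro x y h
    exact (WeierstrassCurve.Affine.equation_iff_nonsingular_of_Δ_ne_zero hΔ).1 h
  have hsurj := toClass_surj (W := ellD D) hns
  refine ⟨Nat.card (ellD D).Point, Nat.card_pos, k2 _ ?_⟩
  show ∀ J : Ideal (ellD D).CoordinateRing, ∃ a : (ellD D).CoordinateRing,
    J ^ Nat.card (ellD D).Point = Ideal.span {a}
  intro J
  show ∃ a : (ellD D).CoordinateRing, J ^ Nat.card (ellD D).Point = Ideal.span {a}
  rcases eq_or_ne J ⊥ with rfl | hJ
  · refine ⟨0, ?_⟩
    rw [← Ideal.zero_eq_bot, zero_pow Nat.card_pos.ne']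
    simp
  · have hJm : J ∈ nonZeroDivisors (Ideal (ellD D).CoordinateRing) := mem_nonZeroDivisors_of_ne_zero hJ
    obtain ⟨Q, hQ⟩ := hsurj (Additive.ofMul (ClassGroup.mk0 ⟨J, hJm⟩))
    have h1 : ClassGroup.mk0 ⟨J, hJm⟩ ^ Nat.card (ellD D).Point = 1 := by
      apply Additive.ofMul.injective
      rw [ofMul_pow, ← hQ, ← map_nsmul, card_nsmul_eq_zero', map_zero]
      rfl
    rw [← map_pow] at h1
    have h0 : (⟨J ^ Nat.card (ellD D).Point, pow_mem hJm _⟩ :
        nonZeroDivisors (Ideal (ellD D).CoordinateRing)) = ⟨J, hJm⟩ ^ Nat.card (ellD D).Point :=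
      Subtype.ext (by rw [SubmonoidClass.coe_pow])
    have h2 := (ClassGroup.mk0_eq_one_iff (I := J ^ Nat.card (ellD D).Point) (pow_mem hJm _)).1 (by
      rw [h0]; exact h1)
    obtain ⟨a, ha⟩ := h2.principal
    exact ⟨a, ha⟩

/-- **The class group of the affine curve `y² = x⁵ + 14 D² x³ + 81 D⁴ x` has finite exponent**, if
`y² = x³ - D² x` has finitely many points. -/
theorem class_exp (hD : D ≠ 0) [Finite (ellD D).Point] [IsDomain (CR (quint D))] :
    ∃ n, 0 < n ∧ ∀ c : ClassGroup (CR (quint D)), c ^ n = 1 := by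
  obtain ⟨e, he0, he⟩ := ell_exp hD
  have := ded_quint hD
  refine ⟨4 * e, by omega, fun c => ?_⟩
  obtain ⟨I, rfl⟩ := ClassGroup.mk0_surjective c
  obtain ⟨a, ha⟩ := expA hD e he (I : Ideal (CR (quint D)))
  have h0 : I ^ (4 * e) = ⟨(I : Ideal (CR (quint D))) ^ (4 * e), pow_mem I.2 _⟩ :=
    Subtype.ext (SubmonoidClass.coe_pow _ _)
  rw [← map_pow, h0, ClassGroup.mk0_eq_one_iff]
  exact ⟨⟨a, ha⟩⟩

end ell

end Pool.Agent.K7.H65.G2
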