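import Pool.Agent.K7.H65.G2.Curve

set_option autoImplicit false
set_option linter.unusedSectionVars false

/-!
# The involutions of the curve `y² = x⁵ + 14 D² x³ + 81 D⁴ x` and the exponent of its class group
-/

namespace Pool.Agent.K7.H65.G2

open Polynomial Pool.Agent.TH943.HJ

section away

variable {F : Type} [Field F] [CharZero F] {D : F} {B : Type} [CommRing B] [Algebra (CR (quint D)) B]
  [Algebra F B] [IsScalarTower F (CR (quint D)) B] [IsLocalization.Away (pp X : CR (quint D)) B]

theorem ext_hom {f g : B →+* B} (hF : ∀ a, f (algebraMap F B a) = g (algebraMap F B a))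
    (hx : f (gens D B).x = g (gens D B).x) (hy : f (gens D B).y = g (gens D B).y) : f = g := by
  apply IsLocalization.ringHom_ext (Submonoid.powers (pp X : CR (quint D)))
  have hj : f.comp (jj D B) = g.comp (jj D B) := by
    apply Polynomial.ringHom_ext
    · intro a
      rw [RingHom.comp_apply, RingHom.comp_apply, jj_C (D := D) (B := B)]
      exact hF a
    · exact hx
  have hj' : ∀ p, f (jj D B p) = g (jj D B p) := fun p => congrArg (fun h => h p) hj
  refine RingHom.ext fun z => ?_
  obtain ⟨p, q, rfl⟩ := exists_el z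
  have e : ∀ h : B →+* B, (h.comp (algebraMap (CR (quint D)) B)) (el p q) =
      h (jj D B p) + h (jj D B q) * h (gens D B).y := by
    intro h
    have : algebraMap (CR (quint D)) B (el p q) = jj D B p + jj D B q * (gens D B).y := by
      unfold el
      rw [map_add, map_mul]; rfl
    rw [RingHom.comp_apply, this, map_add, map_mul]
  rw [e, e, hj', hj', hy]

variable (D B) in
/-- `x ↦ 9 D² / x` on polynomials -/
noncomputable def base : F[X] →+* B :=
  eval₂RingHom (algebraMap F B) (algebraMap F B (9 * D ^ 2) * (gens D B).xi)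

theorem base_C (a : F) : base D B (C a) = algebraMap F B a := by
  unfold base; simp

theorem base_X : base D B X = algebraMap F B (9 * D ^ 2) * (gens D B).xi := by
  unfold base; simp

theorem sq_eq (D' : F) (hD' : D' ^ 2 = D ^ 2) :
    (-algebraMap F B (27 * D' ^ 3) * (gens D B).xi ^ 3 * (gens D B).y) ^ 2 = base D B (quint D) := by
  have hq : base D B (quint D) = base D B X ^ 5 + base D B (C (14 * D ^ 2)) * base D B X ^ 3 +
      base D B (C (81 * D ^ 4)) * base D B X := ring_id _ _ _
  rw [hq, base_C, base_C, base_X]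
  have hx := (gens D B).hx
  have hy := (gens D B).hy
  have hD2 : D' ^ 6 = D ^ 6 := by
    calc D' ^ 6 = (D' ^ 2) ^ 3 := by ring
      _ = (D ^ 2) ^ 3 := by rw [hD']
      _ = D ^ 6 := by ring
  have h27 : algebraMap F B (27 * D' ^ 3) ^ 2 = 729 * algebraMap F B D ^ 6 := by
    have h0 : (27 * D' ^ 3) ^ 2 = 729 * D ^ 6 := by
      rw [mul_pow, ← pow_mul, hD2]; norm_num
    rw [← map_pow, h0, map_mul, map_pow, map_ofNat]
  have h9 : algebraMap F B (9 * D ^ 2) = 9 * algebraMap F B D ^ 2 := by
    rw [map_mul, map_pow, map_ofNat]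
  have h14 : algebraMap F B (14 * D ^ 2) = 14 * algebraMap F B D ^ 2 := by
    rw [map_mul, map_pow, map_ofNat]
  have h81 : algebraMap F B (81 * D ^ 4) = 81 * algebraMap F B D ^ 4 := by
    rw [map_mul, map_pow, map_ofNat]
  rw [h9, h14, h81]
  rw [h14, h81] at hy
  generalize algebraMap F B D = d at *
  generalize (gens D B).x = x at *
  generalize (gens D B).xi = t at *
  generalize (gens D B).y = y at *
  have : (-algebraMap F B (27 * D' ^ 3) * t ^ 3 * y) ^ 2 = 729 * d ^ 6 * t ^ 6 * y ^ 2 := by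
    rw [← h27]; ring
  rw [this, hy]
  have h2 : x ^ 5 * t ^ 5 = 1 := by rw [← mul_pow, hx, one_pow]
  have h3 : x ^ 3 * t ^ 3 = 1 := by rw [← mul_pow, hx, one_pow]
  linear_combination 729 * d ^ 6 * t * h2 + 729 * 14 * d ^ 8 * t ^ 3 * h3 + 729 * 81 * d ^ 10 * t ^ 5 * hx

theorem eval_eq (D' : F) (hD' : D' ^ 2 = D ^ 2) : (X ^ 2 - C (quint D) : F[X][X]).eval₂ (base D B)
    (-algebraMap F B (27 * D' ^ 3) * (gens D B).xi ^ 3 * (gens D B).y) = 0 := by
  rw [eval₂_sub, eval₂_pow, eval₂_X, eval₂_C, sq_eq D' hD', sub_self]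

variable (B) in
/-- The involution on the affine curve. -/
noncomputable def sigA (D' : F) (hD' : D' ^ 2 = D ^ 2) : CR (quint D) →+* B :=
  AdjoinRoot.lift (base D B) _ (eval_eq D' hD')

theorem sigA_pp (D' : F) (hD' : D' ^ 2 = D ^ 2) (p : F[X]) :
    sigA B D' hD' (pp p) = base D B p :=
  AdjoinRoot.lift_of (i := base D B) (h := eval_eq D' hD') (x := p)

theorem sigA_yy (D' : F) (hD' : D' ^ 2 = D ^ 2) : sigA B D' hD' (yy (quint D)) =
    -algebraMap F B (27 * D' ^ 3) * (gens D B).xi ^ 3 * (gens D B).y :=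
  AdjoinRoot.lift_root (i := base D B) (eval_eq D' hD')

theorem alg_unit {a : F} (ha : a ≠ 0) : IsUnit (algebraMap F B a) := (IsUnit.mk0 a ha).map _

theorem xi_unit : IsUnit (gens D B).xi :=
  IsUnit.of_mul_eq_one (gens D B).x (by rw [mul_comm]; exact (gens D B).hx)

theorem sigA_unit (hD : D ≠ 0) (D' : F) (hD' : D' ^ 2 = D ^ 2) :
    IsUnit (sigA B D' hD' (pp X)) := by
  rw [sigA_pp, base_X]
  exact (alg_unit (mul_ne_zero (by norm_num) (pow_ne_zero 2 hD))).mul xi_unit

variable (B) in
/-- The involution `(x, y) ↦ (9 D² / x, - 27 D'³ y / x³)`. -/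
noncomputable def sig (hD : D ≠ 0) (D' : F) (hD' : D' ^ 2 = D ^ 2) : B →+* B :=
  IsLocalization.Away.lift (pp X : CR (quint D)) (sigA_unit hD D' hD')

theorem sig_alg (hD : D ≠ 0) (D' : F) (hD' : D' ^ 2 = D ^ 2) (a : CR (quint D)) :
    sig B hD D' hD' (algebraMap _ B a) = sigA B D' hD' a :=
  IsLocalization.Away.lift_eq _ _ _

theorem sig_F (hD : D ≠ 0) (D' : F) (hD' : D' ^ 2 = D ^ 2) (a : F) :
    sig B hD D' hD' (algebraMap F B a) = algebraMap F B a := by
  rw [← jj_C (D := D) (B := B)]
  show sig B hD D' hD' (algebraMap _ B (pp (C a))) = _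
  rw [sig_alg, sigA_pp, base_C, jj_C]

theorem sig_x (hD : D ≠ 0) (D' : F) (hD' : D' ^ 2 = D ^ 2) :
    sig B hD D' hD' (gens D B).x = algebraMap F B (9 * D ^ 2) * (gens D B).xi := by
  show sig B hD D' hD' (algebraMap _ B (pp X)) = _
  rw [sig_alg, sigA_pp, base_X]

theorem sig_xi (hD : D ≠ 0) (D' : F) (hD' : D' ^ 2 = D ^ 2) :
    algebraMap F B (9 * D ^ 2) * sig B hD D' hD' (gens D B).xi = (gens D B).x := by
  have h1 : sig B hD D' hD' (gens D B).x * sig B hD D' hD' (gens D B).xi = 1 := by
    rw [← map_mul, (gens D B).hx, map_one]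
  rw [sig_x] at h1
  have hx := (gens D B).hx
  linear_combination (gens D B).x * h1 -
    algebraMap F B (9 * D ^ 2) * sig B hD D' hD' (gens D B).xi * hx

theorem sig_y (hD : D ≠ 0) (D' : F) (hD' : D' ^ 2 = D ^ 2) :
    sig B hD D' hD' (gens D B).y =
      -algebraMap F B (27 * D' ^ 3) * (gens D B).xi ^ 3 * (gens D B).y := by
  show sig B hD D' hD' (algebraMap _ B (yy _)) = _
  rw [sig_alg, sigA_yy]

theorem sig_sig (hD : D ≠ 0) (D' : F) (hD' : D' ^ 2 = D ^ 2) (z : B) :
    sig B hD D' hD' (sig B hD D' hD' z) = z := by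
  have h : (sig B hD D' hD').comp (sig B hD D' hD') = RingHom.id B := by
    apply ext_hom (D := D)
    · intro a
      rw [RingHom.comp_apply, sig_F, sig_F]; rfl
    · rw [RingHom.comp_apply, sig_x, map_mul, sig_F, sig_xi]; rfl
    · rw [RingHom.comp_apply, sig_y, map_mul, map_mul, map_neg, map_pow, sig_F, sig_y,
        RingHom.id_apply]
      have h1 := sig_xi (B := B) hD D' hD'
      have hx := (gens D B).hx
      have h27 : algebraMap F B (27 * D' ^ 3) ^ 2 = algebraMap F B (9 * D ^ 2) ^ 3 := by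
        rw [← map_pow, ← map_pow]
        congr 1
        calc (27 * D' ^ 3) ^ 2 = 729 * (D' ^ 2) ^ 3 := by ring
          _ = 729 * (D ^ 2) ^ 3 := by rw [hD']
          _ = (9 * D ^ 2) ^ 3 := by ring
      generalize sig B hD D' hD' (gens D B).xi = w at *
      generalize (gens D B).x = x at *
      generalize (gens D B).xi = t at *
      generalize (gens D B).y = y at *
      have h3 : x ^ 3 * t ^ 3 = 1 := by rw [← mul_pow, hx, one_pow]
      have h4 : (algebraMap F B (9 * D ^ 2) * w) ^ 3 = x ^ 3 := by rw [h1]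
      linear_combination (w ^ 3 * t ^ 3 * y) * h27 + (t ^ 3 * y) * h4 + y * h3
  exact congrArg (fun f => f z) h

/-! ### The hyperelliptic involution -/

variable (D B) in
/-- `y ↦ -y` -/
noncomputable def tau : B →+* B :=
  IsLocalization.Away.lift (pp X : CR (quint D)) (g := (algebraMap (CR (quint D)) B).comp (cj _)) (by
    rw [RingHom.comp_apply, cj_pp]
    exact IsLocalization.Away.algebraMap_isUnit _)

theorem tau_alg (a : CR (quint D)) : tau D B (algebraMap _ B a) = algebraMap _ B (cj _ a) :=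
  IsLocalization.Away.lift_eq _ _ _

theorem tau_F (a : F) : tau D B (algebraMap F B a) = algebraMap F B a := by
  rw [← jj_C (D := D) (B := B)]
  show tau D B (algebraMap _ B (pp (C a))) = _
  rw [tau_alg, cj_pp]; rfl

theorem tau_x : tau D B (gens D B).x = (gens D B).x := by
  show tau D B (algebraMap _ B (pp X)) = algebraMap _ B (pp X)
  rw [tau_alg, cj_pp]

theorem tau_xi : tau D B (gens D B).xi = (gens D B).xi := by
  have h1 : tau D B (gens D B).x * tau D B (gens D B).xi = 1 := by
    rw [← map_mul, (gens D B).hx, map_one]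
  rw [tau_x] at h1
  have hx := (gens D B).hx
  linear_combination (gens D B).xi * h1 - tau D B (gens D B).xi * hx

theorem tau_y : tau D B (gens D B).y = -(gens D B).y := by
  show tau D B (algebraMap _ B (yy _)) = _
  rw [tau_alg, cj_yy, map_neg]; rfl

theorem tau_tau (z : B) : tau D B (tau D B z) = z := by
  have h : (tau D B).comp (tau D B) = RingHom.id B := by
    apply ext_hom (D := D)
    · intro a
      rw [RingHom.comp_apply, tau_F, tau_F]; rfl
    · rw [RingHom.comp_apply, tau_x, tau_x]; rfl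
    · rw [RingHom.comp_apply, tau_y, map_neg, tau_y, neg_neg]; rfl
  exact congrArg (fun f => f z) h

theorem sig_tau (hD : D ≠ 0) (z : B) :
    sig B hD D rfl (tau D B z) = sig B hD (-D) (by ring) z := by
  have h : (sig B hD D rfl).comp (tau D B) = sig B hD (-D) (by ring) := by
    apply ext_hom (D := D)
    · intro a
      rw [RingHom.comp_apply, tau_F, sig_F, sig_F]
    · rw [RingHom.comp_apply, tau_x, sig_x, sig_x]
    · rw [RingHom.comp_apply, tau_y, map_neg, sig_y, sig_y]
      have : algebraMap F B (27 * (-D) ^ 3) = - algebraMap F B (27 * D ^ 3) := by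
        rw [← map_neg]; congr 1; ring
      rw [this]; ring
  exact congrArg (fun f => f z) h

end away

end Pool.Agent.K7.H65.G2
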