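import Pool.Agent.K7.H65.G2.Count

set_option autoImplicit false
set_option linter.unusedSectionVars false

/-!
# From the `L`-function of `E : y² = x³ - D² x` to that of `X : y² = x⁵ + 14 D² x³ + 81 D⁴ x`
-/

namespace Pool.Agent.K7.H65.G2

open Finset NumberField IsDedekindDomain

/-- the number of points of the smooth projective curve `y² = x⁵ + 14 c² x³ + 81 c⁴ x` over the finite
field `E` -/
noncomputable def pts2 (E : Type) [Field E] (c : E) : ℕ :=
  Nat.card {P : E × E // P.2 ^ 2 = P.1 ^ 5 + 14 * c ^ 2 * P.1 ^ 3 + 81 * c ^ 4 * P.1} + 1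

section fin

open Pool.Agent.H126T Polynomial

theorem pts2_eq {k : Type} [Field k] [Finite k] (h2 : (2 : k) ≠ 0) (h3 : (3 : k) ≠ 0) (d : k)
    (hd : d ≠ 0) (α β : ℂ)
    (hα : α + β = (Nat.card k : ℂ) - Nat.card {P : k × k // P.2 ^ 2 = P.1 ^ 3 - d ^ 2 * P.1})
    (hβ : α * β = Nat.card k) (n : ℕ) (hn : 1 ≤ n) (E : Type) [Field E] [Finite E] (φ : k →+* E)
    (hE : Nat.card E = Nat.card k ^ n) :
    (pts2 E (φ d) : ℂ) = (Nat.card E : ℂ) + 1 - 2 * (α ^ n + β ^ n) := by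
  let _ : Algebra k E := φ.toAlgebra
  have h := affPts_quint h2 h3 d hd α β hα hβ n hn
  rw [affPts_eq _ _ n E hE] at h
  have e1 : Nat.card {P : E × E // algebraMap k E 1 * P.2 ^ 2 =
      aeval P.1 (X ^ 5 + C (14 * d ^ 2) * X ^ 3 + C (81 * d ^ 4) * X)} =
      Nat.card {P : E × E // P.2 ^ 2 = P.1 ^ 5 + 14 * (φ d) ^ 2 * P.1 ^ 3 + 81 * (φ d) ^ 4 * P.1} := by
    congr 2
    funext P
    have : algebraMap k E = φ := rfl
    simp only [map_one, one_mul, map_add, map_mul, map_pow, aeval_X, aeval_C, map_ofNat, this]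
  rw [e1] at h
  unfold pts2
  push_cast
  rw [h, hE]
  push_cast
  ring

end fin

section prod

variable {A B : Type}

/-- removing finitely many factors -/
theorem hasProd_remove (f : A → ℂ) (x : ℂ) (hf : HasProd f x) (T : Finset A) (hT : ∀ a ∈ T, f a ≠ 0)
    (e : B → A) (he : Function.Injective e) (hr : ∀ a, a ∈ Set.range e ↔ a ∉ T) :
    HasProd (fun b => f (e b)) (x * ∏ a ∈ T, (f a)⁻¹) := by
  classical
  have h1 : HasProd (fun a : A => if a ∈ T then (f a)⁻¹ else 1) (∏ a ∈ T, (f a)⁻¹) := by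
    have h0 : HasProd (fun a : A => if a ∈ T then (f a)⁻¹ else 1)
        (∏ a ∈ T, if a ∈ T then (f a)⁻¹ else 1) :=
      hasProd_prod_of_ne_finset_one (fun b hb => by simp [hb])
    convert h0 using 1
    exact prod_congr rfl fun a ha => by simp [ha]
  have h2 := hf.mul h1
  have h3 : HasProd ((fun a : A => f a * (if a ∈ T then (f a)⁻¹ else 1)) ∘ e)
      (x * ∏ a ∈ T, (f a)⁻¹) := by
    refine (Function.Injective.hasProd_iff he ?_).2 h2
    intro a ha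
    rw [hr] at ha
    push Not at ha
    simp [ha, hT a ha]
  have h4 : ((fun a : A => f a * (if a ∈ T then (f a)⁻¹ else 1)) ∘ e) = fun b => f (e b) := by
    funext b
    have : e b ∉ T := (hr _).1 ⟨b, rfl⟩
    simp [this]
  rwa [h4] at h3

end prod

section bound

theorem root_bound (α β : ℂ) (q a : ℝ) (hq : 3 ≤ q) (ha : |a| ≤ q) (h1 : α + β = a) (h2 : α * β = q)
    (z : ℂ) (hz : 3 / 2 < z.re) (w : ℂ) (hw : ‖w‖ = q ^ (-z.re)) : 1 - α * w ≠ 0 := by
  intro h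
  have h3 : α ^ 2 = a * α - q := by rw [← h1, ← h2]; ring
  have h4 : ‖α‖ ^ 2 ≤ q * ‖α‖ + q := by
    rw [← norm_pow, h3]
    refine (norm_sub_le _ _).trans ?_
    rw [norm_mul, Complex.norm_real, Complex.norm_real, Real.norm_eq_abs, Real.norm_eq_abs,
      abs_of_pos (show 0 < q by linarith)]
    have := mul_le_mul_of_nonneg_right ha (norm_nonneg α)
    linarith
  have h5 : ‖α‖ < q + 1 := by
    by_contra h0
    push Not at h0
    nlinarith [norm_nonneg α]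
  have h6 : ‖α‖ * ‖w‖ = 1 := by
    rw [← norm_mul]
    have : α * w = 1 := by linear_combination -h
    rw [this, norm_one]
  have h7 : q ^ (-z.re) ≤ q ^ (-(3 / 2 : ℝ)) :=
    Real.rpow_le_rpow_of_exponent_le (by linarith) (by linarith)
  have h8 : 0 < q ^ (-(3 / 2 : ℝ)) := Real.rpow_pos_of_pos (by linarith) _
  have h9 : (q ^ (-(3 / 2 : ℝ))) ^ 2 * q ^ 3 = 1 := by
    rw [← Real.rpow_natCast (q ^ (-(3 / 2 : ℝ))) 2, ← Real.rpow_mul (by linarith),
      ← Real.rpow_natCast q 3, ← Real.rpow_add (by linarith)]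
    norm_num
  have h10 : (q + 1) * q ^ (-(3 / 2 : ℝ)) < 1 := by
    by_contra h0
    push Not at h0
    have h11 : 1 ≤ ((q + 1) * q ^ (-(3 / 2 : ℝ))) ^ 2 := by nlinarith
    have h12 : (q + 1) ^ 2 < q ^ 3 := by nlinarith
    have h13 : 0 < (q ^ (-(3 / 2 : ℝ))) ^ 2 := by positivity
    nlinarith
  rw [hw] at h6
  have h14 : ‖α‖ * q ^ (-z.re) ≤ (q + 1) * q ^ (-(3 / 2 : ℝ)) :=
    mul_le_mul h5.le h7 (Real.rpow_nonneg (by linarith) _) (by linarith)
  linarith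

open Pool.Agent.H341R2.Sharp Pool.Agent.H126T W165.CE Pool.Agent.H82R3.EK in
theorem abs_trace_le {k : Type} [Field k] [Finite k] (h2 : (2 : k) ≠ 0) (d : k) :
    |((Nat.card k : ℤ) - Nat.card {P : k × k // P.2 ^ 2 = P.1 ^ 3 - d ^ 2 * P.1} : ℤ)| ≤
      Nat.card k := by
  classical
  let _ := Fintype.ofFinite k
  have hF : ringChar k ≠ 2 := by
    intro h
    apply h2
    have := ringChar.Nat.cast_ringChar (R := k)
    rw [h] at this
    exact_mod_cast this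
  have h := card_points hF (fun x : k => x ^ 3 - d ^ 2 * x)
  rw [h, Nat.card_eq_fintype_card]
  have e : (Fintype.card k : ℤ) - (Fintype.card k + ∑ x : k, quadraticChar k (x ^ 3 - d ^ 2 * x)) =
      -∑ x : k, quadraticChar k (x ^ 3 - d ^ 2 * x) := by ring
  rw [e, abs_neg]
  refine (Finset.abs_sum_le_sum_abs _ _).trans ?_
  refine (Finset.sum_le_card_nsmul _ _ 1 fun x _ => ?_).trans ?_
  · by_cases hx : x ^ 3 - d ^ 2 * x = 0
    · rw [hx]; simp
    · rcases quadraticChar_dichotomy hx with h | h <;> simp [h]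
  · simp

end bound

section main

variable {F : Type} [Field F] [NumberField F]

/-- `q_v`, the number of elements of the residue field `k_v`. -/
noncomputable def q (v : HeightOneSpectrum (𝓞 F)) : ℕ := Ideal.absNorm v.asIdeal

/-- `#E(k_v)`, with the point at infinity, for `E : y² = x³ - D² x`. -/
noncomputable def points (ι : GaussianInt →+* 𝓞 F) (D : GaussianInt)
    (v : HeightOneSpectrum (𝓞 F)) : ℕ :=
  Nat.card {P : (𝓞 F ⧸ v.asIdeal) × (𝓞 F ⧸ v.asIdeal) // P.2 ^ 2 =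
    P.1 ^ 3 - Ideal.Quotient.mk v.asIdeal (ι (D ^ 2)) * P.1} + 1

/-- the statement on the `L`-function of `X` -/
def IsL2 (ι : GaussianInt →+* 𝓞 F) (D M : GaussianInt) (L : ℂ → ℂ) : Prop :=
  Differentiable ℂ L ∧ ∃ α : {v : HeightOneSpectrum (𝓞 F) // ι M ∉ v.asIdeal} → Fin 4 → ℂ,
    (∀ v (n : ℕ), 1 ≤ n → ∀ (E : Type) [Field E] [Finite E] (φ : 𝓞 F →+* E),
      RingHom.ker φ = v.1.asIdeal → Nat.card E = q v.1 ^ n →
        (pts2 E (φ (ι D)) : ℂ) = (Nat.card E : ℂ) + 1 - ∑ j, α v j ^ n) ∧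
    ∀ z : ℂ, 3 / 2 < z.re →
      HasProd (fun v => (∏ j, (1 - α v j * (q v.1 : ℂ) ^ (-z)))⁻¹) (L z)

theorem q_eq (v : HeightOneSpectrum (𝓞 F)) : Nat.card (𝓞 F ⧸ v.asIdeal) = q v := by
  unfold q
  rw [Ideal.absNorm_apply, Submodule.cardQuot_apply]

theorem q_pos (v : HeightOneSpectrum (𝓞 F)) : 1 < q v := by
  have h0 : q v ≠ 0 := by
    unfold q
    rw [Ne, Ideal.absNorm_eq_zero_iff]
    exact v.ne_bot
  have h1 : q v ≠ 1 := by
    unfold q
    rw [Ne, Ideal.absNorm_eq_one_iff]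
    exact v.isPrime.ne_top
  omega

/-- the reductions at a place which does not divide `M` -/
theorem red (ι : GaussianInt →+* 𝓞 F) (D M : GaussianInt) (hDM : D ∣ M)
    (h2 : (⟨1, 1⟩ : GaussianInt) ∣ M) (v : HeightOneSpectrum (𝓞 F)) (hv : ι M ∉ v.asIdeal) :
    (2 : 𝓞 F) ∉ v.asIdeal ∧ ι D ∉ v.asIdeal := by
  have hP := v.isPrime
  refine ⟨fun h => hv ?_, fun h => hv ?_⟩
  · obtain ⟨c, rfl⟩ := h2
    have e : (2 : 𝓞 F) = ι (⟨1, 1⟩ : GaussianInt) ^ 2 * ι (⟨0, -1⟩ : GaussianInt) := by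
      rw [← map_pow, ← map_mul, ← map_ofNat ι 2]
      congr 1
    rw [e] at h
    have hu : IsUnit (ι (⟨0, -1⟩ : GaussianInt)) := by
      refine IsUnit.map ι (isUnit_iff_exists_inv.2 ⟨⟨0, 1⟩, ?_⟩)
      ext <;> simp
    rw [map_mul]
    apply v.asIdeal.mul_mem_right
    rcases hP.mem_or_mem h with h3 | h3
    · exact hP.mem_of_pow_mem _ h3
    · exact absurd (v.asIdeal.eq_top_of_isUnit_mem h3 hu) hP.ne_top
  · obtain ⟨c, rfl⟩ := hDM
    rw [map_mul]
    exact v.asIdeal.mul_mem_right _ h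

theorem mem3 (ι : GaussianInt →+* 𝓞 F) (M : GaussianInt) (v : HeightOneSpectrum (𝓞 F)) :
    ι (3 * M) ∈ v.asIdeal ↔ (3 : 𝓞 F) ∈ v.asIdeal ∨ ι M ∈ v.asIdeal := by
  rw [map_mul, map_ofNat]
  exact ⟨fun h => v.isPrime.mem_or_mem h, fun h => h.elim (fun h => v.asIdeal.mul_mem_right _ h)
    (fun h => v.asIdeal.mul_mem_left _ h)⟩

theorem isL2_of (ι : GaussianInt →+* 𝓞 F) (D M : GaussianInt) (hDM : D ∣ M)
    (h2 : (⟨1, 1⟩ : GaussianInt) ∣ M) (L : ℂ → ℂ) (hL : Differentiable ℂ L)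
    (α β : {v : HeightOneSpectrum (𝓞 F) // ι M ∉ v.asIdeal} → ℂ)
    (hab : ∀ v, α v + β v = (q v.1 : ℂ) + 1 - points ι D v.1 ∧ α v * β v = q v.1)
    (hP : ∀ z : ℂ, 3 / 2 < z.re →
      HasProd (fun v => ((1 - α v * (q v.1 : ℂ) ^ (-z)) * (1 - β v * (q v.1 : ℂ) ^ (-z)))⁻¹) (L z))
    (h1 : L 1 ≠ 0) : ∃ L', IsL2 ι D (3 * M) L' ∧ L' 1 ≠ 0 := by
  classical
  let A := {v : HeightOneSpectrum (𝓞 F) // ι M ∉ v.asIdeal}
  let B := {v : HeightOneSpectrum (𝓞 F) // ι (3 * M) ∉ v.asIdeal}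
  have hfin0 : {v : HeightOneSpectrum (𝓞 F) | v.asIdeal ∣ Ideal.span {(3 : 𝓞 F)}}.Finite :=
    Ideal.finite_factors (by
      have h3 : (3 : 𝓞 F) ≠ 0 := by norm_num
      exact fun h => h3 (Ideal.span_singleton_eq_bot.1 h))
  have hfin : {a : A | (3 : 𝓞 F) ∈ a.1.asIdeal}.Finite := by
    refine Set.Finite.of_finite_image (f := fun a : A => a.1) (hfin0.subset ?_)
      (Subtype.val_injective.injOn)
    rintro _ ⟨a, ha, rfl⟩
    exact Ideal.dvd_span_singleton.2 ha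
  let T : Finset A := hfin.toFinset
  have hTm : ∀ a : A, a ∈ T ↔ (3 : 𝓞 F) ∈ a.1.asIdeal := fun a => by simp [T]
  let e : B → A := fun v => ⟨v.1, fun h => v.2 ((mem3 ι M v.1).2 (Or.inr h))⟩
  have he : Function.Injective e := by
    intro a b h
    have := congrArg (fun x : A => x.1) h
    exact Subtype.ext this
  have hr : ∀ a, a ∈ Set.range e ↔ a ∉ T := by
    intro a
    rw [hTm]
    constructor
    · rintro ⟨b, rfl⟩ h
      exact b.2 ((mem3 ι M b.1).2 (Or.inl h))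
    · intro h
      refine ⟨⟨a.1, fun h3 => ?_⟩, rfl⟩
      rcases (mem3 ι M a.1).1 h3 with h4 | h4
      · exact h h4
      · exact a.2 h4
  have hpt : ∀ v : A, ∃ N : ℕ, points ι D v.1 = N + 1 ∧
      |((q v.1 : ℤ) - N : ℤ)| ≤ q v.1 := by
    intro v
    have : v.1.asIdeal.IsMaximal := v.1.isMaximal
    let _ : Field (𝓞 F ⧸ v.1.asIdeal) := Ideal.Quotient.field v.1.asIdeal
    have : Finite (𝓞 F ⧸ v.1.asIdeal) := Ideal.finiteQuotientOfFreeOfNeBot _ v.1.ne_bot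
    refine ⟨_, rfl, ?_⟩
    have h2k : (2 : 𝓞 F ⧸ v.1.asIdeal) ≠ 0 := by
      intro h
      apply (red ι D M hDM h2 v.1 v.2).1
      rw [← Ideal.Quotient.eq_zero_iff_mem, map_ofNat]
      exact h
    have := abs_trace_le h2k (Ideal.Quotient.mk v.1.asIdeal (ι D))
    rw [q_eq] at this
    simp only [map_pow]
    exact this
  have hne : ∀ z : ℂ, 3 / 2 < z.re → ∀ a ∈ T,
      (1 - α a * (q a.1 : ℂ) ^ (-z)) ≠ 0 ∧ (1 - β a * (q a.1 : ℂ) ^ (-z)) ≠ 0 := by
    intro z hz a ha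
    obtain ⟨N, hN, hb⟩ := hpt a
    obtain ⟨h3, h4⟩ := hab a
    have hq3 : (3 : ℝ) ≤ (q a.1 : ℝ) := by
      have h5 := q_pos a.1
      have h6 : q a.1 ≠ 2 := by
        intro h6
        have h7 : ((q a.1 : ℕ) : 𝓞 F) ∈ a.1.asIdeal := Ideal.absNorm_mem _
        rw [h6] at h7
        exact (red ι D M hDM h2 a.1 a.2).1 (by exact_mod_cast h7)
      have : 3 ≤ q a.1 := by omega
      exact_mod_cast this
    have hw : ‖(q a.1 : ℂ) ^ (-z)‖ = (q a.1 : ℝ) ^ (-z.re) := by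
      rw [Complex.norm_natCast_cpow_of_pos (by have := q_pos a.1; omega), Complex.neg_re]
    have hbR : |((q a.1 : ℝ) - N)| ≤ q a.1 := by exact_mod_cast hb
    have h3' : α a + β a = (((q a.1 : ℝ) - N : ℝ) : ℂ) := by
      rw [h3, hN]; push_cast; ring
    have h4' : α a * β a = ((q a.1 : ℝ) : ℂ) := by rw [h4]; push_cast; rfl
    exact ⟨root_bound _ _ _ _ hq3 hbR h3' h4' z hz _ hw,
      root_bound _ _ _ _ hq3 hbR (by rw [add_comm]; exact h3') (by rw [mul_comm]; exact h4') z hz _ hw⟩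
  let P : A → ℂ → ℂ := fun a z => (1 - α a * (q a.1 : ℂ) ^ (-z)) * (1 - β a * (q a.1 : ℂ) ^ (-z))
  refine ⟨fun z => (L z * ∏ a ∈ T, P a z) ^ 2, ⟨?_, fun v => ![α (e v), α (e v), β (e v), β (e v)],
    ?_, ?_⟩, ?_⟩
  · have hPd : ∀ a : A, Differentiable ℂ (P a) := by
      intro a
      have hc : Differentiable ℂ (fun z : ℂ => (q a.1 : ℂ) ^ (-z)) := by
        refine Differentiable.const_cpow differentiable_neg (Or.inl ?_)
        have := q_pos a.1
        exact_mod_cast (by omega : q a.1 ≠ 0)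
      exact ((differentiable_const _).sub (hc.const_mul _)).mul
        ((differentiable_const _).sub (hc.const_mul _))
    refine Differentiable.pow (hL.mul ?_) 2
    exact Differentiable.fun_finsetProd fun a _ => hPd a
  · intro v n hn E _ _ φ hker hE
    have : v.1.asIdeal.IsMaximal := v.1.isMaximal
    let _ : Field (𝓞 F ⧸ v.1.asIdeal) := Ideal.Quotient.field v.1.asIdeal
    have : Finite (𝓞 F ⧸ v.1.asIdeal) := Ideal.finiteQuotientOfFreeOfNeBot _ v.1.ne_bot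
    obtain ⟨h5, h6⟩ := red ι D M hDM h2 v.1 (e v).2
    have h2k : (2 : 𝓞 F ⧸ v.1.asIdeal) ≠ 0 := by
      intro h
      apply h5
      rw [← Ideal.Quotient.eq_zero_iff_mem, map_ofNat]
      exact h
    have h3k : (3 : 𝓞 F ⧸ v.1.asIdeal) ≠ 0 := by
      intro h
      refine v.2 ((mem3 ι M v.1).2 (Or.inl ?_))
      rw [← Ideal.Quotient.eq_zero_iff_mem, map_ofNat]
      exact h
    have hdk : Ideal.Quotient.mk v.1.asIdeal (ι D) ≠ 0 := by
      intro h
      exact h6 (Ideal.Quotient.eq_zero_iff_mem.1 h)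
    obtain ⟨h7, h8⟩ := hab (e v)
    let ψ : 𝓞 F ⧸ v.1.asIdeal →+* E := Ideal.Quotient.lift v.1.asIdeal φ (fun a ha => by
      rw [← hker] at ha; exact ha)
    have hψ : ψ (Ideal.Quotient.mk v.1.asIdeal (ι D)) = φ (ι D) := Ideal.Quotient.lift_mk _ _ _
    have h9 := pts2_eq h2k h3k _ hdk (α (e v)) (β (e v)) (by
      rw [h7, q_eq]
      unfold points
      simp only [map_pow]
      push_cast
      ring) (by rw [h8, q_eq]) n hn E ψ (by rw [q_eq]; exact hE)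
    rw [hψ] at h9
    rw [h9]
    simp [Fin.sum_univ_four]
    ring
  · intro z hz
    have h5 := hasProd_remove _ _ (hP z hz) T (fun a ha => by
      obtain ⟨h6, h7⟩ := hne z hz a ha
      exact inv_ne_zero (mul_ne_zero h6 h7)) e he hr
    have h6 := h5.mul h5
    have h7 : (∏ a ∈ T, (((1 - α a * (q a.1 : ℂ) ^ (-z)) * (1 - β a * (q a.1 : ℂ) ^ (-z)))⁻¹)⁻¹) =
        ∏ a ∈ T, P a z := prod_congr rfl fun a _ => inv_inv _
    rw [h7, ← sq] at h6
    convert h6 using 1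
    funext v
    simp only [Fin.prod_univ_four, Matrix.cons_val_zero, Matrix.cons_val_one, Matrix.cons_val]
    rw [← mul_inv]
    congr 1
    ring
  · show (L 1 * ∏ a ∈ T, P a 1) ^ 2 ≠ 0
    refine pow_ne_zero 2 (mul_ne_zero h1 (prod_ne_zero_iff.2 fun a ha => ?_))
    obtain ⟨N, hN, -⟩ := hpt a
    obtain ⟨h3, h4⟩ := hab a
    have hq0 : (q a.1 : ℂ) ≠ 0 := by
      have := q_pos a.1
      exact_mod_cast (by omega : q a.1 ≠ 0)
    show (1 - α a * (q a.1 : ℂ) ^ (-1 : ℂ)) * (1 - β a * (q a.1 : ℂ) ^ (-1 : ℂ)) ≠ 0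
    rw [Complex.cpow_neg_one]
    have h5 : (1 - α a * (q a.1 : ℂ)⁻¹) * (1 - β a * (q a.1 : ℂ)⁻¹) = (N + 1) / q a.1 := by
      have h6 : (1 - α a * (q a.1 : ℂ)⁻¹) * (1 - β a * (q a.1 : ℂ)⁻¹) =
          1 - (α a + β a) * (q a.1 : ℂ)⁻¹ + (α a * β a) * (q a.1 : ℂ)⁻¹ ^ 2 := by ring
      rw [h6, h3, h4, hN]
      push_cast
      field_simp
      ring
    rw [h5]
    exact div_ne_zero (by exact_mod_cast Nat.succ_ne_zero N) hq0

end main

end Pool.Agent.K7.H65.G2
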