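import Mathlib

set_option autoImplicit false
set_option linter.unusedSectionVars false

/-!
# Ideals of a Dedekind domain with commuting involutions

If the norms `z σ(z)` of an involution `σ` of a Dedekind domain `B` come from the ring `R`, then for every
ideal `I` of `B` the ideal `I σ(I)` is the extension of an ideal of `R`.
-/

namespace Pool.Agent.K7.H65.G2

open Ideal

section

variable {R B : Type*} [CommRing R] [CommRing B] [IsDedekindDomain B]

theorem map_equiv_le_iff {σ : B ≃+* B} (hσ : ∀ z, σ (σ z) = z) (I J : Ideal B) :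
    I ≤ J.map (σ : B →+* B) ↔ I.map (σ : B →+* B) ≤ J := by
  have h2 : ∀ K : Ideal B, (K.map (σ : B →+* B)).map (σ : B →+* B) = K := by
    intro K
    rw [Ideal.map_map]
    have : ((σ : B →+* B).comp (σ : B →+* B)) = RingHom.id B := by
      ext z; exact hσ z
    rw [this, Ideal.map_id]
  constructor
  · intro h
    have := Ideal.map_mono (f := (σ : B →+* B)) h
    rwa [h2] at this
  · intro h
    have := Ideal.map_mono (f := (σ : B →+* B)) h
    rwa [h2] at this

theorem map_invol {σ : B ≃+* B} (hσ : ∀ z, σ (σ z) = z) (K : Ideal B) :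
    (K.map (σ : B →+* B)).map (σ : B →+* B) = K := by
  rw [Ideal.map_map]
  have : ((σ : B →+* B).comp (σ : B →+* B)) = RingHom.id B := by
    ext z; exact hσ z
  rw [this, Ideal.map_id]

/-- `I σ(I)` is generated by the norms of the elements of `I`. -/
theorem span_norms {σ : B ≃+* B} (hσ : ∀ z, σ (σ z) = z) (I : Ideal B) :
    Ideal.span {w | ∃ x ∈ I, w = x * σ x} = I * I.map (σ : B →+* B) := by
  classical
  rcases eq_or_ne I ⊥ with rfl | hI
  · rw [Ideal.bot_mul, Ideal.span_eq_bot]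
    rintro w ⟨x, hx, rfl⟩
    rw [Ideal.mem_bot] at hx
    rw [hx, zero_mul]
  have hle : Ideal.span {w | ∃ x ∈ I, w = x * σ x} ≤ I * I.map (σ : B →+* B) := by
    rw [Ideal.span_le]
    rintro w ⟨x, hx, rfl⟩
    exact Ideal.mul_mem_mul hx (Ideal.mem_map_of_mem (σ : B →+* B) hx)
  have hσI : I.map (σ : B →+* B) ≠ ⊥ := by
    intro h
    apply hI
    rw [← map_invol hσ I, h, Ideal.map_bot]
  obtain ⟨c, hc⟩ := Ideal.dvd_iff_le.2 hle
  suffices hct : c = ⊤ by rw [hc, hct, Ideal.mul_top]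
  by_contra hne
  obtain ⟨Q, hQmax, hcQ⟩ := Ideal.exists_le_maximal c hne
  have hQtop : Q ≠ ⊤ := hQmax.ne_top
  have hσQtop : Q.map (σ : B →+* B) ≠ ⊤ := by
    intro h
    apply hQtop
    rw [← map_invol hσ Q, h, Ideal.map_top]
  -- choose `x`
  have hnot : ∀ K : Ideal B, K ≠ ⊤ → ¬ I ≤ I * K := by
    intro K hK h
    apply hK
    have h1 : I * K = I * ⊤ := by
      rw [Ideal.mul_top]; exact le_antisymm Ideal.mul_le_left h
    exact mul_left_cancel₀ hI h1
  obtain ⟨x, hxI, hx⟩ : ∃ x ∈ I, x ∉ I * Q ∧ x ∉ I * Q.map (σ : B →+* B) := by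
    by_contra hcon
    push Not at hcon
    have : (I : Set B) ⊆ (I * Q : Ideal B) ∪ (I * Q.map (σ : B →+* B) : Ideal B) := by
      intro x hx
      by_cases h1 : x ∈ I * Q
      · exact Or.inl h1
      · exact Or.inr (hcon x hx h1)
    rcases Ideal.subset_union.1 this with h | h
    · exact hnot _ hQtop h
    · exact hnot _ hσQtop h
  obtain ⟨hx1, hx2⟩ := hx
  obtain ⟨J, hJ⟩ := Ideal.dvd_iff_le.2 ((Ideal.span_singleton_le_iff_mem _).2 hxI)
  have hcx : c ∣ J * J.map (σ : B →+* B) := by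
    have h1 : Ideal.span {x * σ x} ≤ Ideal.span {w | ∃ x ∈ I, w = x * σ x} := by
      rw [Ideal.span_singleton_le_iff_mem]
      exact Ideal.subset_span ⟨x, hxI, rfl⟩
    have h2 : Ideal.span {x * σ x} = (I * J) * (I * J).map (σ : B →+* B) := by
      rw [← hJ, Ideal.map_span, Set.image_singleton, Ideal.span_singleton_mul_span_singleton]
      rfl
    rw [h2, hc] at h1
    have h3 := Ideal.dvd_iff_le.2 h1
    have h4 : I * J * (I * J).map (σ : B →+* B) =
        (I * I.map (σ : B →+* B)) * (J * J.map (σ : B →+* B)) := by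
      rw [Ideal.map_mul]; ring
    rw [h4] at h3
    exact (mul_dvd_mul_iff_left (mul_ne_zero hI hσI)).1 h3
  have hQJ : J * J.map (σ : B →+* B) ≤ Q := (Ideal.le_of_dvd hcx).trans hcQ
  rcases (hQmax.isPrime.mul_le).1 hQJ with h | h
  · apply hx1
    have : x ∈ I * J := by rw [← hJ]; exact Ideal.mem_span_singleton_self x
    exact Ideal.mul_mono_right h this
  · apply hx2
    have h5 : J ≤ Q.map (σ : B →+* B) := (map_equiv_le_iff hσ J Q).2 h
    have : x ∈ I * J := by rw [← hJ]; exact Ideal.mem_span_singleton_self x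
    exact Ideal.mul_mono_right h5 this

/-- If all the norms come from `R`, then `I σ(I)` is extended from `R`. -/
theorem exists_map_eq (φ : R →+* B) {σ : B ≃+* B} (hσ : ∀ z, σ (σ z) = z)
    (hN : ∀ z, ∃ r, φ r = z * σ z) (I : Ideal B) :
    ∃ J : Ideal R, J.map φ = I * I.map (σ : B →+* B) := by
  refine ⟨Ideal.span {r | ∃ x ∈ I, φ r = x * σ x}, ?_⟩
  rw [Ideal.map_span, ← span_norms hσ]
  congr 1
  ext w
  constructor
  · rintro ⟨r, ⟨x, hx, hr⟩, rfl⟩
    exact ⟨x, hx, hr⟩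
  · rintro ⟨x, hx, rfl⟩
    obtain ⟨r, hr⟩ := hN x
    exact ⟨r, ⟨x, hx, hr⟩, hr⟩

theorem principal_of_mul {I : Ideal B} {b c : B} (hb : b ≠ 0)
    (h : I * Ideal.span {b} = Ideal.span {c}) : ∃ a, I = Ideal.span {a} := by
  have h1 : c ∈ Ideal.span {b} := by
    have : Ideal.span {c} ≤ Ideal.span {b} := by rw [← h]; exact Ideal.mul_le_right
    exact this (Ideal.mem_span_singleton_self c)
  obtain ⟨a, rfl⟩ := Ideal.mem_span_singleton'.1 h1
  refine ⟨a, ?_⟩
  rw [← Ideal.span_singleton_mul_span_singleton] at h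
  exact mul_right_cancel₀ (fun h0 => hb (Ideal.span_singleton_eq_bot.1 h0)) h

/-- The exponent of the class group: two involutions whose norms come from rings with class groups of
exponent `e`, and whose product has norms which come from a principal ideal ring. -/
theorem exponent {R₁ R₂ R₀ : Type*} [CommRing R₁] [CommRing R₂] [CommRing R₀]
    [IsPrincipalIdealRing R₀] (φ₁ : R₁ →+* B) (φ₂ : R₂ →+* B) (φ₀ : R₀ →+* B)
    {σ₁ σ₂ τ : B ≃+* B} (h1 : ∀ z, σ₁ (σ₁ z) = z) (h2 : ∀ z, σ₂ (σ₂ z) = z) (h0 : ∀ z, τ (τ z) = z)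
    (h12 : ∀ z, σ₁ (τ z) = σ₂ z) (hN1 : ∀ z, ∃ r, φ₁ r = z * σ₁ z) (hN2 : ∀ z, ∃ r, φ₂ r = z * σ₂ z)
    (hN0 : ∀ z, ∃ r, φ₀ r = z * τ z) (e : ℕ)
    (he1 : ∀ J : Ideal R₁, ∃ a, J ^ e = Ideal.span {a})
    (he2 : ∀ J : Ideal R₂, ∃ a, J ^ e = Ideal.span {a}) (I : Ideal B) :
    ∃ a, I ^ (2 * e) = Ideal.span {a} := by
  rcases eq_or_ne I ⊥ with rfl | hI
  · rcases Nat.eq_zero_or_pos e with rfl | he
    · exact ⟨1, by simp⟩
    · refine ⟨0, ?_⟩
      rw [← Ideal.zero_eq_bot, zero_pow (by omega)]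
      simp
  obtain ⟨J₁, hJ₁⟩ := exists_map_eq φ₁ h1 hN1 I
  obtain ⟨J₂, hJ₂⟩ := exists_map_eq φ₂ h2 hN2 I
  obtain ⟨J₀, hJ₀⟩ := exists_map_eq φ₀ h0 hN0 I
  obtain ⟨a₁, ha₁⟩ := he1 J₁
  obtain ⟨a₂, ha₂⟩ := he2 J₂
  obtain ⟨b, hb⟩ : ∃ b : B, I * I.map (τ : B →+* B) = Ideal.span {b} := by
    obtain ⟨b, hb⟩ := (IsPrincipalIdealRing.principal J₀).principal
    refine ⟨φ₀ b, ?_⟩
    rw [← hJ₀, hb, Ideal.submodule_span_eq, Ideal.map_span, Set.image_singleton]
  have hb0 : b ≠ 0 := by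
    rintro rfl
    have hτI : I.map (τ : B →+* B) ≠ ⊥ := by
      intro h
      apply hI
      rw [← map_invol h0 I, h, Ideal.map_bot]
    rw [Ideal.span_singleton_eq_bot.2 rfl] at hb
    exact mul_ne_zero hI hτI hb
  have hσ₂ : (I.map (τ : B →+* B)).map (σ₁ : B →+* B) = I.map (σ₂ : B →+* B) := by
    rw [Ideal.map_map]
    congr 1
    ext z; exact h12 z
  have key : I ^ 2 * Ideal.span {b * σ₁ b} =
      (I * I.map (σ₁ : B →+* B)) * (I * I.map (σ₂ : B →+* B)) * Ideal.span {b} := by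
    have h3 : Ideal.span {b * σ₁ b} =
        (I * I.map (τ : B →+* B)) * (I * I.map (τ : B →+* B)).map (σ₁ : B →+* B) := by
      rw [hb, Ideal.map_span, Set.image_singleton, Ideal.span_singleton_mul_span_singleton]
      rfl
    rw [h3, ← hb, Ideal.map_mul, hσ₂]
    ring
  have key2 : I ^ (2 * e) * Ideal.span {(b * σ₁ b) ^ e} = Ideal.span {φ₁ a₁ * φ₂ a₂ * b ^ e} := by
    have h4 : I ^ (2 * e) * Ideal.span {(b * σ₁ b) ^ e} = (I ^ 2 * Ideal.span {b * σ₁ b}) ^ e := by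
      rw [mul_pow (I ^ 2), ← pow_mul, Ideal.span_singleton_pow]
    rw [h4, key, mul_pow, mul_pow, ← hJ₁, ← hJ₂, ← Ideal.map_pow, ← Ideal.map_pow, ha₁, ha₂,
      Ideal.map_span, Ideal.map_span, Set.image_singleton, Set.image_singleton,
      Ideal.span_singleton_mul_span_singleton, Ideal.span_singleton_pow,
      Ideal.span_singleton_mul_span_singleton]
  refine principal_of_mul ?_ key2
  exact pow_ne_zero _ (mul_ne_zero hb0 (by
    intro h
    exact hb0 (σ₁.injective (by rw [h, map_zero]))))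

end

end Pool.Agent.K7.H65.G2
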